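import Pool.Agent.P8H27.UT.Stmt

/-!
# Finite generation for products of varieties over finite fields: definitions

`X` is a smooth projective variety and `Z` a scheme over the field with `Q` elements. The theories
relative to `Z` are those of the starting files (`Pool.Agent.Y156.L`).
-/

set_option autoImplicit false

namespace Pool.Agent.P8H27.WE

open Polynomial Module Pool.Agent.Y156.L Pool.Agent.P8H27.UC Pool.Agent.P8H27.UT

section semi

variable {K : Type} [Field K] {A : AbelianData K}

/-- The push-forward with a cycle `x` on `X` and the Frobenius endomorphism of `X`: the projection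
formula gives the factor `Q ^ (dim X - codim x)`. -/
def PushFrobenius (Q : ℕ) (R : RelData A) : Prop :=
  ∀ {c d : ℕ} {x : A.CH} (m : R.M), c + d = A.dim → A.Codim d x →
    R.push x (R.app A.frob m) = R.scaleN ((Q : ℚ) ^ c) (R.push x m)

/-- The eigenvalue `Q ^ j` of the Frobenius endomorphism of `Z` on `R^i(Z, j)` is semisimple. -/
def SemisimpleN (Q : ℕ) (R : RelData A) (i j : ℤ) : Prop :=
  ∀ n n' : R.N, R.DegN i j n → R.DegN i j n' → R.FN n = R.scaleN ((Q : ℚ) ^ j) n + n' →
    R.FN n' = R.scaleN ((Q : ℚ) ^ j) n' → n' = 0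

/-- The eigenvalue `Q ^ j` of the Frobenius endomorphism of `X × Z` on `R^i(X × Z, j)` is semisimple. -/
def SemisimpleM (Q : ℕ) (R : RelData A) (i j : ℤ) : Prop :=
  ∀ m m' : R.M, R.DegM i j m → R.DegM i j m' →
    R.app A.frob (R.FM m) = R.scaleM ((Q : ℚ) ^ j) m + m' →
    R.app A.frob (R.FM m') = R.scaleM ((Q : ℚ) ^ j) m' → m' = 0

/-- `K^j(Z)`, rationally: in weight `j` the regulator of `Z` is an isomorphism onto the Frobenius
invariants in all degrees, and the eigenvalue one is semisimple. -/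
def KN {T R : RelData A} (ρ : Regulator T R) (Q : ℕ) (j : ℤ) : Prop :=
  ∀ i : ℤ, InjectiveN ρ i j ∧ OntoN ρ Q i j ∧ SemisimpleN Q R i j

/-- `K^j(X × Z)`, rationally: in weight `j` the regulator of `X × Z` is an isomorphism onto the
Frobenius invariants in all degrees, and the eigenvalue one is semisimple. -/
def KM {T R : RelData A} (ρ : Regulator T R) (Q : ℕ) (j : ℤ) : Prop :=
  ∀ i : ℤ, InjectiveM ρ i j ∧ OntoM ρ Q i j ∧ SemisimpleM Q R i j

end semi

section weil

/-- `L^j`: the groups `W j i` are finitely generated for all `i`. -/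
def AllFG (W : ℤ → ℤ → Type) [∀ j i, AddCommGroup (W j i)] (j : ℤ) : Prop :=
  ∀ i : ℤ, AddGroup.FG (W j i)

/-- The theorem of Geisser on the Weil-étale motivic cohomology groups `W j i = H^i_W(Y, ℤ(j))` of a smooth
projective variety `Y` of dimension `d`: `L^j` implies `K^j`, and `K^j` and `K^(d - j)` imply `L^j`. -/
structure GeisserTheorem (d : ℤ) (W : ℤ → ℤ → Type) [∀ j i, AddCommGroup (W j i)] (P : ℤ → Prop) :
    Prop where
  necessary : ∀ j, AllFG W j → P j
  sufficient : ∀ j, P j → P (d - j) → AllFG W j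

end weil

section etale

/-- Let `Y` be a smooth projective connected variety of dimension `d` over a finite field, `E r i` its étale
motivic cohomology group `H^i(Y_et, ℤ(r))`, `gr i r` the rational motivic cohomology group
`H^i(Y, ℚ(r))`, and `deg` the degree of zero-cycles. The following is known, for `r ≥ d` and `i ≤ 2 r`:
* the exact sequence `H^(i - 1)(Y_et, (ℚ / ℤ)(r)) → H^i(Y_et, ℤ(r)) → H^i(Y, ℚ(r))`, whose first group is
  finite (Colliot-Thélène, Sansuc, Soulé, Gabber, Milne, Gros, Suwa);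
* `H^i(Y, ℚ(r))` is the group `H^i(Y_et, ℤ(r)) ⊗ ℚ`, and the degree of integral zero-cycles is integral;
* if `H^i(Y_et, ℤ(r))` is finitely generated then it is finite for `(i, r) ≠ (2 d, d)`, and zero-cycles of
  degree zero have finite order if `(i, r) = (2 d, d)`: after completion the group is a subgroup of
  `H^i(Y_et, ℤ_ℓ(r))`, which is finite, or of rank one, by Deligne's theorem on the weights. -/
def IsEtale {V : Type} [AddCommGroup V] [Module ℚ V] (gr : ℤ → ℤ → Submodule ℚ V)
    (deg : V →ₗ[ℚ] ℚ) (d : ℤ) (E : ℤ → ℤ → Type) [∀ r i, AddCommGroup (E r i)] : Prop :=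
  ∀ r i : ℤ, d ≤ r → i ≤ 2 * r →
    ∃ (F : Type) (_ : AddCommGroup F) (_ : Finite F) (δ : F →+ E r i) (ρ : E r i →+ V),
      Function.Exact δ ρ ∧ (∀ x, ρ x ∈ gr i r) ∧
      (∀ v ∈ gr i r, ∃ k : ℤ, k ≠ 0 ∧ ∃ x, ρ x = k • v) ∧
      ((i = 2 * d ∧ r = d) → ∀ x, ∃ k : ℤ, deg (ρ x) = k) ∧
      (AddGroup.FG (E r i) → ∀ x, ((i = 2 * d ∧ r = d) → deg (ρ x) = 0) → IsOfFinAddOrder x)

end etale

end Pool.Agent.P8H27.WE
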