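import Mathlib
import Pool.Agent.P8H27.UT.Thms
import Pool.Agent.P8H27.WE.Defs

/-!
# Finite generation for products of varieties over finite fields: lemmas
-/

set_option autoImplicit false
set_option linter.unusedSectionVars false

namespace Pool.Agent.P8H27.WE

open Polynomial Module Pool.Agent.Y156.L Pool.Agent.P8H27.UC Pool.Agent.P8H27.UT

section

variable {K : Type} [Field K] [CharZero K] {A : AbelianData K} {J : Type} [Fintype J]
  {c : J → ℕ} {D E : J → A.CH} {Q : ℕ}

theorem semi_iff (hF : IsSystem A c D) (h : IsDual A c D E) (hQ : Q ≠ 0) {R : RelData A}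
    (hR : IsRel Q R) (hpf : PushFrobenius Q R)
    (hexp : ∀ (i j : ℤ) (m : R.M), R.InvM Q i j m → m = ∑ t, R.times (D t) (R.pair (E t) m))
    (i j : ℤ) : SemisimpleM Q R i j ↔
      ∀ k : ℕ, k ≤ A.dim → SemisimpleN Q R (i - 2 * k) (j - k) := by
  have hQ0 : (Q : ℚ) ≠ 0 := by exact_mod_cast hQ
  constructor
  · intro h0 k hk n n' hn hn' h1 h2
    obtain ⟨t, rfl⟩ := hF.exists_eq k hk
    change R.frobN n = (Q : ℚ) ^ (j - (c t : ℤ)) • n + n' at h1
    change R.frobN n' = (Q : ℚ) ^ (j - (c t : ℤ)) • n' at h2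
    have e1 : (Q : ℚ) ^ c t * (Q : ℚ) ^ (j - (c t : ℤ)) = (Q : ℚ) ^ j := by
      rw [← zpow_natCast, ← zpow_add₀ hQ0]
      congr 1
      ring
    have hm := hR.times_mem (h.left t) hn
    have hm' := hR.times_mem (h.left t) hn'
    rw [sub_add_cancel, sub_add_cancel] at hm hm'
    have h3 := h0 (R.times (D t) n) ((Q : ℚ) ^ c t • R.times (D t) n') hm
      (Submodule.smul_mem _ _ hm') (by
        change R.act A.frob (R.frobM (R.times (D t) n)) =
          (Q : ℚ) ^ j • R.times (D t) n + (Q : ℚ) ^ c t • R.times (D t) n'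
        rw [hR.frob_times, h1, hR.act_frob_times _ (h.left t), map_add, map_smul, smul_add,
          smul_smul, e1]) (by
        change R.act A.frob (R.frobM ((Q : ℚ) ^ c t • R.times (D t) n')) =
          (Q : ℚ) ^ j • ((Q : ℚ) ^ c t • R.times (D t) n')
        rw [map_smul, map_smul, hR.frob_times, h2, map_smul, map_smul,
          hR.act_frob_times _ (h.left t), smul_smul ((Q : ℚ) ^ (j - (c t : ℤ))), mul_comm
          ((Q : ℚ) ^ (j - (c t : ℤ))), e1, smul_comm])
    have h4 : R.times (D t) n' = 0 := (smul_eq_zero.1 h3).resolve_left (pow_ne_zero _ hQ0)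
    classical
    have h5 := dualpair hR h t t n'
    rw [h4, map_zero, if_pos rfl] at h5
    exact h5.symm
  · intro h0 m m' hm hm' h1 h2
    change R.act A.frob (R.frobM m) = (Q : ℚ) ^ j • m + m' at h1
    change R.act A.frob (R.frobM m') = (Q : ℚ) ^ j • m' at h2
    have hinv : R.InvM Q i j m' := ⟨hm', h2⟩
    rw [hexp i j m' hinv]
    refine Finset.sum_eq_zero fun t _ => ?_
    have hct : c t + (A.dim - c t) = A.dim := by have := h.le t; omega
    have hp : ∀ x : R.M, R.pair (E t) (R.act A.frob x) = (Q : ℚ) ^ c t • R.pair (E t) x :=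
      fun x => hpf x hct (h.right t)
    have e1 : ((Q : ℚ) ^ c t)⁻¹ * (Q : ℚ) ^ j = (Q : ℚ) ^ (j - (c t : ℤ)) := by
      rw [zpow_sub₀ hQ0, zpow_natCast, div_eq_inv_mul]
    have key : ∀ x y : R.M, R.act A.frob (R.frobM x) = (Q : ℚ) ^ j • x + y →
        R.frobN (R.pair (E t) x) = (Q : ℚ) ^ (j - (c t : ℤ)) • R.pair (E t) x +
          ((Q : ℚ) ^ c t)⁻¹ • R.pair (E t) y := by
      intro x y hxy
      have h3 := congrArg (R.pair (E t)) hxy
      rw [hp, ← hR.frob_pair, map_add, map_smul] at h3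
      have h4 := congrArg (fun z => ((Q : ℚ) ^ c t)⁻¹ • z) h3
      simp only [smul_smul, smul_add] at h4
      rw [inv_mul_cancel₀ (pow_ne_zero _ hQ0), one_smul, e1] at h4
      exact h4
    have h3 := h0 (c t) (h.le t) (R.pair (E t) m) (((Q : ℚ) ^ c t)⁻¹ • R.pair (E t) m')
      (hR.pair_mem hct (h.right t) hm)
      (Submodule.smul_mem _ _ (hR.pair_mem hct (h.right t) hm')) (key m m' h1) (by
        change R.frobN (((Q : ℚ) ^ c t)⁻¹ • R.pair (E t) m') = (Q : ℚ) ^ (j - (c t : ℤ)) •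
          (((Q : ℚ) ^ c t)⁻¹ • R.pair (E t) m')
        have h5 := key m' 0 (by rw [h2, add_zero])
        rw [map_zero, smul_zero, add_zero] at h5
        rw [map_smul, h5, smul_comm])
    have h4 : R.pair (E t) m' = 0 :=
      (smul_eq_zero.1 h3).resolve_left (inv_ne_zero (pow_ne_zero _ hQ0))
    rw [h4, map_zero]

/-- `K^j` for the product. -/
theorem k_iff (hF : IsSystem A c D) (h : IsDual A c D E) (hQ : Q ≠ 0) {T R : RelData A}
    (hT : IsRel Q T) (hR : IsRel Q R) (hpf : PushFrobenius Q R) {ρ : Regulator T R}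
    (hc : IsRegulator ρ)
    (hexpT : ∀ (i j : ℤ), ∀ m ∈ T.grM i j, m = ∑ t, T.times (D t) (T.pair (E t) m))
    (hexpR : ∀ (i j : ℤ) (m : R.M), R.InvM Q i j m → m = ∑ t, R.times (D t) (R.pair (E t) m))
    (j : ℤ) : KM ρ Q j ↔ ∀ k : ℕ, k ≤ A.dim → KN ρ Q (j - k) := by
  constructor
  · intro h0 k hk i
    obtain ⟨h1, h2, h3⟩ := h0 (i + 2 * k)
    have h1' := (inj_iff hF h hT hc hexpT _ _).1 h1 k hk
    have h2' := (onto_iff hF h hQ hT hR hc hexpR _ _).1 h2 k hk
    have h3' := (semi_iff hF h hQ hR hpf hexpR _ _).1 h3 k hk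
    rw [add_sub_cancel_right] at h1' h2' h3'
    exact ⟨h1', h2', h3'⟩
  · intro h0 i
    exact ⟨(inj_iff hF h hT hc hexpT _ _).2 fun k hk => (h0 k hk _).1,
      (onto_iff hF h hQ hT hR hc hexpR _ _).2 fun k hk => (h0 k hk _).2.1,
      (semi_iff hF h hQ hR hpf hexpR _ _).2 fun k hk => (h0 k hk _).2.2⟩

/-- `L^j` and `L^(dim - j)` for the product. -/
theorem l_iff {dX : ℕ} {d : ℤ} {WN WM : ℤ → ℤ → Type} [∀ j i, AddCommGroup (WN j i)]
    [∀ j i, AddCommGroup (WM j i)] {PN PM : ℤ → Prop} (hN : GeisserTheorem d WN PN)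
    (hM : GeisserTheorem (dX + d) WM PM)
    (hk : ∀ j, PM j ↔ ∀ k : ℕ, k ≤ dX → PN (j - k)) (j : ℤ) :
    (AllFG WM j ∧ AllFG WM (dX + d - j)) ↔
      ∀ k : ℕ, k ≤ dX → AllFG WN (j - k) ∧ AllFG WN (d - (j - k)) := by
  have h1 : ∀ k : ℕ, k ≤ dX → ∃ l : ℕ, l ≤ dX ∧ (dX : ℤ) + d - j - l = d - (j - k) := by
    intro k hk
    refine ⟨dX - k, Nat.sub_le _ _, ?_⟩
    rw [Nat.cast_sub hk]
    ring
  have h2 : ∀ k : ℕ, k ≤ dX → ∃ l : ℕ, l ≤ dX ∧ d - (j - l) = (dX : ℤ) + d - j - k := by
    intro k hk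
    refine ⟨dX - k, Nat.sub_le _ _, ?_⟩
    rw [Nat.cast_sub hk]
    ring
  constructor
  · rintro ⟨ha, hb⟩ k hk'
    have ha' := (hk _).1 (hM.necessary _ ha)
    have hb' := (hk _).1 (hM.necessary _ hb)
    obtain ⟨l, hl, e⟩ := h1 k hk'
    have p1 := ha' k hk'
    have p2 := hb' l hl
    rw [e] at p2
    exact ⟨hN.sufficient _ p1 p2, hN.sufficient _ p2 (by rwa [sub_sub_cancel])⟩
  · intro h0
    have p1 : PM j := (hk _).2 fun k hk' => hN.necessary _ (h0 k hk').1
    have p2 : PM (dX + d - j) := (hk _).2 fun k hk' => by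
      obtain ⟨l, hl, e⟩ := h2 k hk'
      have := hN.necessary _ (h0 l hl).2
      rwa [e] at this
    exact ⟨hM.sufficient _ p1 p2, hM.sufficient _ p2 (by rwa [sub_sub_cancel])⟩

end

section etale

/-- In the bidegree considered all elements (of degree zero, for zero-cycles) vanish. -/
def Vanish {V : Type} [AddCommGroup V] [Module ℚ V] (gr : ℤ → ℤ → Submodule ℚ V)
    (deg : V →ₗ[ℚ] ℚ) (d i r : ℤ) : Prop :=
  ∀ v ∈ gr i r, ((i = 2 * d ∧ r = d) → deg v = 0) → v = 0

theorem fg_of_finite_of_fg {F G H : Type*} [AddCommGroup F] [AddCommGroup G] [AddCommGroup H]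
    [Finite F] (δ : F →+ G) (ρ : G →+ H) (h : Function.Exact δ ρ) (hfg : ρ.range.FG) :
    AddGroup.FG G := by
  have h1 : ρ.ker.FG := by
    have e : ρ.ker = δ.range := by
      ext x
      rw [AddMonoidHom.mem_ker, AddMonoidHom.mem_range]
      exact h x
    rw [e]
    have : Finite δ.range := by
      exact Finite.of_surjective _ δ.rangeRestrict_surjective
    exact (AddGroup.fg_iff_addSubgroup_fg δ.range).1 inferInstance
  have h2 : Module.Finite ℤ G := by
    have k1 : (LinearMap.ker ρ.toIntLinearMap).FG := by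
      have := (AddSubgroup.fg_iff_addSubmonoid_fg ρ.ker)
      have h3 : (LinearMap.ker ρ.toIntLinearMap).toAddSubgroup = ρ.ker := by
        ext x; rfl
      exact (Submodule.fg_iff_addSubgroup_fg _).2 (h3 ▸ h1)
    have k2 : (LinearMap.range ρ.toIntLinearMap).FG := by
      have h3 : (LinearMap.range ρ.toIntLinearMap).toAddSubgroup = ρ.range := by
        ext x; rfl
      exact (Submodule.fg_iff_addSubgroup_fg _).2 (h3 ▸ hfg)
    constructor
    refine Submodule.fg_of_fg_map_of_fg_inf_ker ρ.toIntLinearMap ?_ ?_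
    · rw [Submodule.map_top]
      exact k2
    · rw [top_inf_eq]
      exact k1
  exact Module.Finite.iff_addGroup_fg.1 h2

theorem fg_iff {V : Type} [AddCommGroup V] [Module ℚ V] {gr : ℤ → ℤ → Submodule ℚ V}
    {deg : V →ₗ[ℚ] ℚ} {d : ℤ} {E : ℤ → ℤ → Type} [∀ r i, AddCommGroup (E r i)]
    (h : IsEtale gr deg d E) {r i : ℤ} (hr : d ≤ r) (hi : i ≤ 2 * r) :
    AddGroup.FG (E r i) ↔ Vanish gr deg d i r := by
  obtain ⟨F, _, _, δ, ρ, hex, hmem, htens, hint, htors⟩ := h r i hr hi
  constructor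
  · intro hfg v hv hdeg
    obtain ⟨k, hk, x, hx⟩ := htens v hv
    have h1 := htors hfg x (fun h2 => by rw [hx, map_zsmul, hdeg h2, smul_zero])
    obtain ⟨n, hn, hnx⟩ := isOfFinAddOrder_iff_nsmul_eq_zero.1 h1
    have h2 := congrArg ρ hnx
    rw [map_nsmul, hx, map_zero] at h2
    have h3 : ((n : ℚ) * (k : ℚ)) • v = 0 := by
      rw [mul_smul, Int.cast_smul_eq_zsmul, Nat.cast_smul_eq_nsmul]
      exact h2
    exact (smul_eq_zero.1 h3).resolve_left (mul_ne_zero (by exact_mod_cast hn.ne')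
      (by exact_mod_cast hk))
  · intro hP
    refine fg_of_finite_of_fg δ ρ hex ?_
    by_cases hc : i = 2 * d ∧ r = d
    · -- the degree is injective on the image and integral
      let g : ρ.range →+ ℚ := deg.toAddMonoidHom.comp ρ.range.subtype
      have hg : Function.Injective g := by
        rw [injective_iff_map_eq_zero]
        rintro ⟨y, x, rfl⟩ hy
        have h1 : ρ x = 0 := hP _ (hmem x) (fun _ => hy)
        exact Subtype.ext h1
      have hg2 : ∀ y, ∃ k : ℤ, g y = k := by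
        rintro ⟨y, x, rfl⟩
        exact hint hc x
      choose f hf using hg2
      have hfg' : ∃ f' : ρ.range →+ ℤ, Function.Injective f' := by
        refine ⟨⟨⟨f, ?_⟩, ?_⟩, ?_⟩
        · have := hf 0
          rw [map_zero] at this
          exact_mod_cast this.symm
        · intro a b
          have := hf (a + b)
          rw [map_add, hf a, hf b] at this
          exact_mod_cast this.symm
        · intro a b hab
          apply hg
          rw [hf a, hf b]
          exact_mod_cast hab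
      obtain ⟨f', hf'⟩ := hfg'
      rw [← AddGroup.fg_iff_addSubgroup_fg]
      exact Module.Finite.iff_addGroup_fg.1
        (Module.Finite.of_injective f'.toIntLinearMap hf')
    · have h1 : ρ.range = ⊥ := by
        rw [eq_bot_iff]
        rintro y ⟨x, rfl⟩
        exact hP _ (hmem x) (fun h2 => absurd h2 hc)
      rw [h1]
      exact ⟨∅, by simp⟩

variable {K : Type} [Field K] [CharZero K] {A : AbelianData K} {J : Type} [Fintype J]
  {c : J → ℕ} {D E : J → A.CH} {Q : ℕ}

theorem vanish_iff (hF : IsSystem A c D) (h : IsDual A c D E) (hA : IsChowRing A)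
    (h0 : ∀ x : A.CH, A.Codim 0 x → ∃ t : ℚ, x = t • (1 : A.CH)) {T : RelData A}
    (hT : IsRel Q T)
    (hexp : ∀ (i j : ℤ), ∀ m ∈ T.grM i j, m = ∑ t, T.times (D t) (T.pair (E t) m))
    {degN : T.N →ₗ[ℚ] ℚ} {degM : T.M →ₗ[ℚ] ℚ} (hdeg : ∀ m, degM m = degN (T.pair 1 m))
    {d i r : ℤ} (hr : A.dim + d ≤ r) :
    Vanish T.grM degM (A.dim + d) i r ↔
      ∀ k : ℕ, k ≤ A.dim → Vanish T.grN degN d (i - 2 * k) (r - k) := by
  constructor
  · intro hV k hk n hn hd
    obtain ⟨t, rfl⟩ := hF.exists_eq k hk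
    have h1 := hT.times_mem (h.left t) hn
    rw [sub_add_cancel, sub_add_cancel] at h1
    have h2 := hV _ h1 (by
      rintro ⟨e1, e2⟩
      rw [hdeg, hT.pair_times, one_mul, map_smul]
      by_cases hc : c t = A.dim
      · rw [hd ⟨by rw [e1, hc]; ring, by rw [e2, hc]; ring⟩, smul_zero]
      · rw [hA.deg_eq_zero hc (h.left t), zero_smul])
    classical
    have h3 := dualpair hT h t t n
    rw [h2, map_zero, if_pos rfl] at h3
    exact h3.symm
  · intro hV m hm hd
    rw [hexp i r m hm]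
    refine Finset.sum_eq_zero fun t _ => ?_
    have hct : c t + (A.dim - c t) = A.dim := by have := h.le t; omega
    have h1 := hT.pair_mem hct (h.right t) hm
    have h2 := hV (c t) (h.le t) _ h1 (by
      rintro ⟨e1, e2⟩
      have hle := h.le t
      have hc : c t = A.dim := by
        have : (A.dim : ℤ) ≤ c t := by linarith
        exact le_antisymm hle (by exact_mod_cast this)
      have h3 := h.right t
      rw [hc, Nat.sub_self] at h3
      obtain ⟨s, hs⟩ := h0 _ h3
      have h4 := hd ⟨by rw [hc] at e1; linarith, by rw [hc] at e2; linarith⟩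
      rw [hdeg] at h4
      rw [hs, map_smul, LinearMap.smul_apply, map_smul, h4, smul_zero])
    rw [h2, map_zero]

end etale

end Pool.Agent.P8H27.WE
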