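import Pool.Agent.P8H27.WE.Defs
import Pool.Agent.P8H27.MC.Defs

/-!
# Finite generation for products of varieties over finite fields: statements
-/

set_option autoImplicit false

namespace Pool.Agent.P8H27.WE

open Polynomial Module NumberField Pool.Agent.Y156.L Pool.Agent.P8H27.UC Pool.Agent.P8H27.UT

/-- Let `X` be a smooth projective variety over the field with `q = p ^ m` elements, with
finite-dimensional motive (`IsVariety`), for which the Tate conjecture holds (`HasTate`) and such that
the eigenvalues of Frobenius on its cohomology are products of Weil numbers in `S`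
(`HasEigenvaluesIn`). Let `Z` be any smooth projective variety of dimension `d` such that the
eigenvalues of Frobenius on the motivic cohomology `T` and on the `ℓ`-adic cohomology `R` of `X × Z`
(the Frobenius of `Z`) are uncorrelated with `S` (`HasUncorrelatedRoots`). Let `WN j i` and `WM j i` be the
Weil-étale motivic cohomology groups `H^i_W(Z, ℤ(j))` and `H^i_W(X × Z, ℤ(j))`, to which the theorem
of Geisser applies. Then

* for all `j`, the groups of `X × Z` in the complementary weights `j` and `dim X + d - j` are finitely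
  generated if and only if for all `0 ≤ k ≤ dim X` the groups of `Z` in the complementary weights `j - k`
  and `d - (j - k)` are finitely generated;
* all groups of `X × Z` are finitely generated if and only if all groups of `Z` are. -/
def WeilEtaleTimes (p m : ℕ) [Fact p.Prime] : Prop :=
  ∀ (K : Type) [Field K] [IsAlgClosed K] [CharZero K] (X : AbelianData K) (S : Set (K × ℤ)),
    IsVariety X (p ^ m) → HasTate X (p ^ m) → HasEigenvaluesIn X p m S →
    ∀ (T R : RelData X) (ρ : Regulator T R), IsRel (p ^ m) T → T.IsPure (p ^ m) →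
      IsRel (p ^ m) R → PushFrobenius (p ^ m) R → IsRegulator ρ →
      HasUncorrelatedRoots p m S T → HasUncorrelatedRoots p m S R →
      ∀ (d : ℤ) (WN WM : ℤ → ℤ → Type) [∀ j i, AddCommGroup (WN j i)]
        [∀ j i, AddCommGroup (WM j i)], GeisserTheorem d WN (KN ρ (p ^ m)) →
        GeisserTheorem (X.dim + d) WM (KM ρ (p ^ m)) →
        (∀ j, (AllFG WM j ∧ AllFG WM (X.dim + d - j)) ↔
          ∀ k : ℕ, k ≤ X.dim → AllFG WN (j - k) ∧ AllFG WN (d - (j - k))) ∧
        ((∀ j, AllFG WM j) ↔ ∀ j, AllFG WN j)

/-- The statement on the étale motivic cohomology groups `EN r i = H^i(Z_et, ℤ(r))` and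
`EM r i = H^i((X × Z)_et, ℤ(r))`, for a theory `T` (rational motivic cohomology) relative to `Z`:

* for all `r ≥ dim X + d` and `i ≤ 2 r`, the group `H^i((X × Z)_et, ℤ(r))` is finitely generated if and
  only if the groups `H^(i - 2 k)(Z_et, ℤ(r - k))`, `0 ≤ k ≤ dim X`, are finitely generated;
* the groups `H^i((X × Z)_et, ℤ(dim (X × Z)))`, `i ≤ 2 dim (X × Z)`, are finitely generated if and only if
  the groups `H^i(Z_et, ℤ(r))`, `d ≤ r ≤ dim X + d`, `i ≤ 2 r`, are finitely generated. -/
def EtaleIff {K : Type} [Field K] {X : AbelianData K} (T : RelData X) : Prop :=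
  ∀ (degN : T.N →ₗ[ℚ] ℚ) (degM : T.M →ₗ[ℚ] ℚ), (∀ m, degM m = degN (T.push 1 m)) →
    ∀ (d : ℤ) (EN EM : ℤ → ℤ → Type) [∀ r i, AddCommGroup (EN r i)]
      [∀ r i, AddCommGroup (EM r i)], IsEtale T.grN degN d EN →
      IsEtale T.grM degM (X.dim + d) EM →
      (∀ r i : ℤ, X.dim + d ≤ r → i ≤ 2 * r → (AddGroup.FG (EM r i) ↔
        ∀ k : ℕ, k ≤ X.dim → AddGroup.FG (EN (r - k) (i - 2 * k)))) ∧
      ((∀ i : ℤ, i ≤ 2 * (X.dim + d) → AddGroup.FG (EM (X.dim + d) i)) ↔
        ∀ r : ℤ, d ≤ r → r ≤ X.dim + d → ∀ i : ℤ, i ≤ 2 * r → AddGroup.FG (EN r i))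

/-- `X` is connected: the cycles of codimension zero are the multiples of `X`. -/
def IsConnected {K : Type} [Field K] (X : AbelianData K) : Prop :=
  ∀ x : X.CH, X.Codim 0 x → ∃ t : ℚ, x = t • (1 : X.CH)

/-- The statement `EtaleIff` for the products `X × Z`, where `X` is a connected variety with
finite-dimensional motive which satisfies the Tate conjecture, and the eigenvalues of Frobenius of `Z` are
uncorrelated with those of `X`. -/
def EtaleTimes (p m : ℕ) [Fact p.Prime] : Prop :=
  ∀ (K : Type) [Field K] [IsAlgClosed K] [CharZero K] (X : AbelianData K) (S : Set (K × ℤ)),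
    IsVariety X (p ^ m) → HasTate X (p ^ m) → HasEigenvaluesIn X p m S → IsConnected X →
    ∀ T : RelData X, IsRel (p ^ m) T → T.IsPure (p ^ m) → HasUncorrelatedRoots p m S T → EtaleIff T

/-- The statement `EtaleIff` for the products `A × Z`, where `A` is an abelian variety over the field with
`q = p ^ m` elements whose eigenvalues of Frobenius on `H^1(A)` are roots of the polynomials `f i`, hence
supersingular or roots of `T ^ 2 - φ(b) T + q`, `b ∈ S`, and the eigenvalues of Frobenius of `Z` are
separated. -/
def EtaleTracesTimes (p m : ℕ) [Fact p.Prime] {L : Type} [Field L] [NumberField L] (S : Set (𝓞 L))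
    {I : Type} (f : I → ℤ[X]) : Prop :=
  ∀ (K : Type) [Field K] [IsAlgClosed K] [CharZero K] (A : AbelianData K),
    MC.HasTraces (p ^ m) S f K → IsAbelian A (p ^ m) 1 f → IsConnected A →
    ∀ T : RelData A, IsRel (p ^ m) T → T.IsPure (p ^ m) → MC.HasSeparatedRoots p m S f T → EtaleIff T

end Pool.Agent.P8H27.WE
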