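import Mathlib
import Pool.Agent.P8H27.WE.Main
import Pool.Agent.P8H27.WE.Stmt
import Pool.Agent.P8H27.MC.Main

/-!
# Finite generation for products of varieties over finite fields: conclusion
-/

set_option autoImplicit false
set_option linter.unusedSectionVars false

namespace Pool.Agent.P8H27.WE

open Polynomial Module NumberField Pool.Agent.Y156.L Pool.Agent.P8H27.UC Pool.Agent.P8H27.UT
  Pool.Agent.P8H27.RF

section

variable {K : Type} [Field K] [CharZero K] {A : AbelianData K} {J : Type} [Fintype J]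
  {c : J → ℕ} {D E : J → A.CH} {Q : ℕ}

theorem etaleIff (hF : IsSystem A c D) (h : IsDual A c D E) (hA : IsChowRing A)
    (h0 : IsConnected A) {T : RelData A} (hT : IsRel Q T)
    (hexp : ∀ (i j : ℤ), ∀ m ∈ T.grM i j, m = ∑ t, T.times (D t) (T.pair (E t) m)) :
    EtaleIff T := by
  intro degN degM hdeg d EN EM _ _ hN hM
  have h1 : ∀ r i : ℤ, A.dim + d ≤ r → i ≤ 2 * r → (AddGroup.FG (EM r i) ↔
      ∀ k : ℕ, k ≤ A.dim → AddGroup.FG (EN (r - k) (i - 2 * k))) := by
    intro r i hr hi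
    rw [fg_iff hM hr hi, vanish_iff hF h hA h0 hT hexp hdeg hr]
    refine forall_congr' fun k => forall_congr' fun hk => ?_
    have hk' : (k : ℤ) ≤ A.dim := by exact_mod_cast hk
    exact (fg_iff hN (by linarith) (by linarith)).symm
  refine ⟨h1, ⟨fun ha r hr1 hr2 i hi => ?_, fun ha i hi => (h1 _ i le_rfl hi).2 fun k hk => ?_⟩⟩
  · obtain ⟨k, hk⟩ := Int.eq_ofNat_of_zero_le (sub_nonneg.2 hr2)
    have h2 := (h1 (A.dim + d) (i + 2 * k) le_rfl (by linarith)).1 (ha _ (by linarith)) k (by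
      have : (k : ℤ) ≤ A.dim := by rw [← hk]; linarith
      exact_mod_cast this)
    have e1 : (A.dim : ℤ) + d - k = r := by linarith
    have e2 : i + 2 * k - 2 * (k : ℤ) = i := by ring
    rw [e1, e2] at h2
    exact h2
  · have hk' : (k : ℤ) ≤ A.dim := by exact_mod_cast hk
    exact ha _ (by linarith) (by linarith) _ (by linarith)

end

variable {p m : ℕ} [hp : Fact p.Prime] (hm : 0 < m)

include hm

theorem weilEtaleTimes : WeilEtaleTimes p m := by
  intro K _ _ _ A S hA hT hS T R ρ hTr hpure hRr hpf hc hroots hroots' d WN WM _ _ hN hM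
  have hQ : p ^ m ≠ 0 := pow_ne_zero _ hp.out.ne_zero
  obtain ⟨J, hJ, c, D, E', hF, hdual, hmain⟩ := exists_classes hm hA hT hS
  have hk := fun j => k_iff hF hdual hQ hTr hRr hpf hc
    (fun i j m hm => (hmain T hTr hroots i j m (hpure i j m hm)).1)
    (fun i j m hm => (hmain R hRr hroots' i j m hm).1) j
  have h1 := fun j => l_iff hN hM hk j
  refine ⟨h1, ⟨fun ha j => ?_, fun ha j => ?_⟩⟩
  · have h2 := ((h1 j).1 ⟨ha _, ha _⟩ 0 (Nat.zero_le _)).1
    rw [Nat.cast_zero, sub_zero] at h2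
    exact h2
  · exact ((h1 j).2 fun k _ => ⟨ha _, ha _⟩).1

theorem etaleTimes : EtaleTimes p m := by
  intro K _ _ _ A S hA hT hS h0 T hTr hpure hroots
  obtain ⟨J, hJ, c, D, E', hF, hdual, hmain⟩ := exists_classes hm hA hT hS
  exact etaleIff hF hdual hA.chow h0 hTr
    (fun i j m hm => (hmain T hTr hroots i j m (hpure i j m hm)).1)

variable {L : Type} [Field L] [NumberField L] [IsTotallyReal L] [IsGalois ℚ L] {S : Set (𝓞 L)}
  {I : Type} {f : I → ℤ[X]} (hS : WeilBound (p ^ m) S) (hP : PrimeTo p S) (hL : numPrimes p L ≤ 2)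

include hS hP hL

theorem etaleTracesTimes : EtaleTracesTimes p m S f := by
  intro K _ _ _ A hT hA h0 T hTr hpure hroots
  have hq : 1 < p ^ m := Nat.one_lt_pow hm.ne' hp.out.one_lt
  obtain ⟨J, hJ, c, D, E', hF, hdual, -, hmain⟩ := MC.exists_classes hq hA
    (MC.integral_of_traces hT) (MC.IsSeparated p m S f) (MC.exactPair' hm hS hP hL hT)
    (MC.isSeparated_one hm) (MC.not_isSeparated_zero hm)
  have hF' : IsSystem A c D := ⟨hdual.left, hF.le, hF.exists_eq⟩
  refine etaleIff (Q := p ^ m) hF' hdual hA.chow h0 hTr fun i j m' hm' => ?_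
  have h2 := hmain T (by rw [pow_one]; exact hTr) (by rw [pow_one]; exact hroots) i j m'
    (by rw [pow_one]; exact hpure i j m' hm')
  exact h2.1

end Pool.Agent.P8H27.WE
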